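import Pool.Agent.H56.E.Base
import Pool.Agent.H56.E.H56.G3.TS

/-!
# The windows of a good stretch have near optimal sums with few separated frequencies
-/

set_option autoImplicit false

namespace Pool.Agent.H56.E.H69.G3

open Pool.Agent.H69.G3

open Finset Pool.Agent.H6.N4D Pool.Agent.H78.GX.H6.N4D Pool.Agent.H93.EB Pool.Agent.H93.GS Pool.Agent.H56.G3 Pool.Agent.H56.E.H56.G3

theorem pf_SB (hREG : T_REG) (hSN : T_SN) : T_SB := by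
  intro th Lam κ hth hth1 hLam hκ
  obtain ⟨δ, P₀, hδ, hR⟩ := hREG th Lam κ hth hth1 hLam hκ
  refine ⟨δ, hδ, fun K r hK => ?_⟩
  obtain ⟨X₁, hX₁⟩ := hSN K r (P₀ : ℝ) hK
  refine ⟨X₁, fun S k₁ lam t hS hX hB ht hG => ?_⟩
  obtain ⟨-, -, -, -, -, h1, -, -⟩ := hX₁ S k₁ hS hX
  obtain ⟨-, -, -, -, -, -, h2⟩ := h1 t ht
  have h3 : (P₀ : ℝ) * 2 ^ lv S.X 0 ≤ Nt S t := h2 0 (by omega)
  have h4 : P₀ * 2 ^ lv S.X 0 ≤ Nt S t := by exact_mod_cast h3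
  have h5 := (hG 0 (by omega) 1 (Or.inl rfl)).1
  rw [one_mul] at h5
  exact hR lam (2 ^ lv S.X 0) (Nt S t) (S.n t) hB Nat.one_le_two_pow h4 h5

end Pool.Agent.H56.E.H69.G3
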